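import Pool.Agent.P.MP_bdc337_an.LN.Mono
import Pool.Agent.P.MP_bdc337_an.LN.NotR

/-! Rational competitors: perturbation and polynomials given by lists. -/

set_option autoImplicit false

open Finset PowerSeries Metric Filter Topology Real

namespace Pool.Agent.P.MP_bdc337_an.UB

open UO LN

variable {a : ℝ} {q H G : ℂ → ℂ}

lemma perturb2 (h : Dat a q H G) {p A B : ℂ → ℂ} (pd : DifferentiableOn ℂ p (closedBall 0 1))
    (pr : ∀ z ∈ closedBall (0 : ℂ) 1, 0 < (p z).re)
    (pq : ∀ z ∈ closedBall (0 : ℂ) 1, Complex.exp (a * Complex.log (p z)) = q z)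
    (Ad : DifferentiableOn ℂ A (closedBall 0 1)) (Bd : DifferentiableOn ℂ B (closedBall 0 1))
    {k : ℝ} (k0 : 0 < k)
    (hB : ∀ u : ℂ, ‖u‖ = 1 → ‖B u‖ ≤ 1 - k)
    (hA : ∀ u : ℂ, ‖u‖ = 1 → 4 * ‖A u - (p u).re * B u‖ < (p u).re * k) {n d : ℕ} (hd : d < n)
    {s : ℂ} (hs : ‖s‖ = 1) : ∃ q' H' G', Dat a q' H' G' ∧
      coeff (n + d) (tay fun z => Complex.exp (G' z)) =
        coeff (n + d) (tay fun z => Complex.exp (G z)) + s * ∑ x ∈ antidiagonal d,
          coeff x.1 (tay fun z => Complex.exp (G z)) *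
            (coeff x.2 (tay fun z => 2 * a * (q z / p z * A z)) / (n + x.2)) := by
  have hnb : closedBall (0 : ℂ) 1 ∈ 𝓝 (0 : ℂ) := closedBall_mem_nhds 0 one_pos
  have z0 : (0 : ℂ) ∈ closedBall (0 : ℂ) 1 := mem_closedBall_self zero_le_one
  have n0 : n ≠ 0 := by omega
  have pn : ∀ z ∈ closedBall (0 : ℂ) 1, p z ≠ 0 := fun z hz e => by simpa [e] using pr z hz
  have den : ∀ z ∈ closedBall (0 : ℂ) 1, 1 - s * z ^ n * B z ≠ 0 := fun z hz e => by
    have h1 := LN.max_lt Bd (c := 1) (fun u hu => by linarith [hB u hu]) hz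
    have h2 := congrArg norm (sub_eq_zero.1 e)
    rw [norm_one, norm_mul, norm_mul, hs, one_mul, norm_pow] at h2
    have h3 := pow_le_one₀ (n := n) (norm_nonneg z) (mem_closedBall_zero_iff.1 hz)
    nlinarith [norm_nonneg (B z)]
  set P : ℂ → ℂ := fun z => p z + 2 * (s * z ^ n * A z) / (1 - s * z ^ n * B z) with hP
  have Pd : DifferentiableOn ℂ P (closedBall 0 1) :=
    pd.add (DifferentiableOn.div (by fun_prop) (by fun_prop) den)
  have Pr : ∀ z ∈ closedBall (0 : ℂ) 1, 0 < (P z).re := fun z hz => by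
    have := LN.max_lt Pd.neg.cexp (c := 1) (fun u hu => ?_) hz
    · rw [Complex.norm_exp, exp_lt_one_iff] at this
      simpa using this
    · have t1 : ‖s * u ^ n‖ = 1 := by rw [norm_mul, hs, norm_pow, hu, one_pow, mul_one]
      have := pos_re (p := p u) (A := s * u ^ n * A u) (w := s * u ^ n * B u) k0
        (by rw [norm_mul, t1, one_mul]; exact hB u hu)
        (by rw [mul_left_comm _ (s * u ^ n), ← mul_sub, norm_mul, t1, one_mul]; exact hA u hu)
      rw [Complex.norm_exp, exp_lt_one_iff, Pi.neg_apply, Complex.neg_re, neg_lt_zero]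
      exact this
  obtain ⟨H', G', h'⟩ := mk_dat (q := fun z => Complex.exp (a * Complex.log (P z))) h.a0 h.a1
    (((Pd.clog fun z hz => Or.inl (Pr z hz)).const_mul _).cexp.mono ball_subset_closedBall)
    (by simp only [hP, zero_pow n0, mul_zero, zero_mul, zero_div, add_zero, pq 0 z0, h.q0])
    fun z hz => by
      have hp := Pr z (ball_subset_closedBall hz)
      have nv : 0 < ‖P z‖ := norm_pos_iff.2 fun e => by simp [e] at hp
      have := h.a0
      simpa using room h.a0 h.a1 hp (g := 0) (by rw [norm_zero]; positivity)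
  refine ⟨_, H', G', h', ?_⟩
  obtain ⟨E, Ea, hE⟩ := pow_exp a
  have ap : AnalyticAt ℂ p 0 := pd.analyticAt hnb
  have aq : AnalyticAt ℂ q 0 := h.qd.analyticAt (ball_mem_nhds 0 one_pos)
  have aA : AnalyticAt ℂ A 0 := Ad.analyticAt hnb
  have aB : AnalyticAt ℂ B 0 := Bd.analyticAt hnb
  have d0 : (1 - s * 0 ^ n * B 0) * p 0 ≠ 0 := mul_ne_zero (den 0 z0) (pn 0 z0)
  set Y : ℂ → ℂ := fun z => 2 * s / ((1 - s * z ^ n * B z) * p z) * A z with hY
  have aY : AnalyticAt ℂ Y 0 :=
    AnalyticAt.fun_mul (AnalyticAt.fun_div (by fun_prop) (by fun_prop) d0) aA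
  have ax : AnalyticAt ℂ (fun z => z ^ n * Y z) 0 := by fun_prop
  have aE : AnalyticAt ℂ (fun z => E (z ^ n * Y z)) 0 :=
    AnalyticAt.comp_of_eq Ea ax (by simp [n0])
  have ac : AnalyticAt ℂ (fun z => 2 * a * (q z / p z * A z)) 0 :=
    analyticAt_const.fun_mul ((aq.fun_div ap (pn 0 z0)).fun_mul aA)
  have ae : AnalyticAt ℂ (fun z => q z * (a * s * Y z * B z + Y z ^ 2 * E (z ^ n * Y z))) 0 :=
    aq.fun_mul (AnalyticAt.fun_add (by fun_prop) ((aY.fun_pow 2).fun_mul aE))
  have a1 : AnalyticAt ℂ (fun z => s * (2 * a * (q z / p z * A z))) 0 := analyticAt_const.fun_mul ac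
  have a2 : ∀ m : ℕ, AnalyticAt ℂ (fun z : ℂ => z ^ m) 0 := fun m => by fun_prop
  have ev : (fun z => Complex.exp (a * Complex.log (P z))) =ᶠ[𝓝 0] fun z => q z +
      z ^ n * (s * (2 * a * (q z / p z * A z))) +
      z ^ (2 * n) * (q z * (a * s * Y z * B z + Y z ^ 2 * E (z ^ n * Y z))) := by
    have c1 : ContinuousAt (fun z => (1 + z ^ n * Y z).re) 0 :=
      Complex.continuous_re.continuousAt.comp (continuousAt_const.add ax.continuousAt)
    filter_upwards [hnb, c1.eventually (lt_mem_nhds (a := 0) (by simp [n0]))] with z hz h1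
    have h2 := den z hz
    have h3 := pn z hz
    have h4 : P z = p z * (1 + z ^ n * Y z) := by
      simp only [hP, hY]
      field_simp
    have h5 := abs_lt.1 (Complex.abs_arg_lt_pi_div_two_iff.2 (Or.inl (pr z hz)))
    have h6 := abs_lt.1 (Complex.abs_arg_lt_pi_div_two_iff.2 (Or.inl h1))
    have h7 : Y z * (1 - s * z ^ n * B z) = 2 * s * (A z / p z) := by
      simp only [hY]
      field_simp
    rw [h4, Complex.log_mul h3 (fun e => by simp [e] at h1) ⟨by linarith, by linarith⟩, mul_add,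
      Complex.exp_add, pq z hz, hE]
    linear_combination (a * q z * z ^ n) * h7
  have := pert (g := tay fun z => Complex.exp (G' z)) (Q := tay q - 1)
    (c := C s * tay fun z => 2 * a * (q z / p z * A z))
    (e := tay fun z => q z * (a * s * Y z * B z + Y z ^ 2 * E (z ^ n * Y z))) hd
    (by rw [map_sub, coeff_zero_tay, h.q0]; simp)
    (by rw [coeff_zero_tay, coeff_zero_tay, h.G0, h'.G0]) h.euler (by
      rw [h'.euler, tay_congr ev, tay_add (aq.fun_add ((a2 n).fun_mul a1)) ((a2 _).fun_mul ae),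
        tay_add aq ((a2 n).fun_mul a1), tay_mul (a2 _) ae, tay_mul (a2 n) a1, tay_pow, tay_pow,
        tay_const_mul _ ac]
      ring)
  rw [this, mul_sum]
  congr 1
  exact sum_congr rfl fun x _ => by rw [coeff_C_mul]; ring

def ad : List ℚ → List ℚ → List ℚ
  | [], m => m
  | x :: l, [] => x :: l
  | x :: l, y :: m => (x + y) :: ad l m

def sm (c : ℚ) : List ℚ → List ℚ
  | [] => []
  | x :: l => (c * x) :: sm c l

def mu : List ℚ → List ℚ → List ℚ
  | [], _ => []
  | x :: l, m => ad (sm x m) (0 :: mu l m)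

def eu : ℕ → List ℚ → List ℚ
  | _, [] => []
  | k, x :: l => (k * x) :: eu (k + 1) l

def l1 : List ℚ → ℚ
  | [] => 0
  | x :: l => |x| + l1 l

noncomputable def ev : List ℚ → ℂ → ℂ
  | [], _ => 0
  | x :: l, z => x + z * ev l z

lemma ev_ad (l m : List ℚ) (z : ℂ) : ev (ad l m) z = ev l z + ev m z := by
  induction l generalizing m with
  | nil => simp [ad, ev]
  | cons x l ih =>
    cases m with
    | nil => simp [ad, ev]
    | cons y m => simp only [ad, ev, ih]; push_cast; ring

lemma ev_sm (c : ℚ) (l : List ℚ) (z : ℂ) : ev (sm c l) z = c * ev l z := by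
  induction l with
  | nil => simp [sm, ev]
  | cons x l ih => simp only [sm, ev, ih]; push_cast; ring

lemma ev_mu (l m : List ℚ) (z : ℂ) : ev (mu l m) z = ev l z * ev m z := by
  induction l with
  | nil => simp [mu, ev]
  | cons x l ih => simp only [mu, ev_ad, ev_sm, ev, ih]; push_cast; ring

lemma ev_app (l m : List ℚ) (z : ℂ) : ev (l ++ m) z = ev l z + z ^ l.length * ev m z := by
  induction l with
  | nil => simp [ev]
  | cons x l ih => simp only [List.cons_append, ev, ih, List.length_cons]; ring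

lemma ev_zero (d : ℕ) (z : ℂ) : ev (List.replicate d 0) z = 0 := by
  induction d with
  | zero => simp [ev]
  | succ d ih => simp [List.replicate_succ, ev, ih]

lemma ev_norm (l : List ℚ) {z : ℂ} (hz : ‖z‖ ≤ 1) : ‖ev l z‖ ≤ l1 l := by
  induction l with
  | nil => simp [ev, l1]
  | cons x l ih =>
    simp only [ev, l1]
    refine (norm_add_le _ _).trans ?_
    rw [norm_mul, Complex.norm_ratCast]
    push_cast
    nlinarith [norm_nonneg z, norm_nonneg (ev l z)]

lemma ev_rev (l : List ℚ) {z : ℂ} (hz : ‖z‖ = 1) :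
    z * ev l.reverse z = z ^ l.length * (starRingEnd ℂ) (ev l z) := by
  have h1 : z * (starRingEnd ℂ) z = 1 := by rw [Complex.mul_conj', hz]; simp
  induction l with
  | nil => simp [ev]
  | cons x l ih =>
    simp only [List.reverse_cons, ev_app, ev, List.length_reverse, List.length_cons, map_add,
      map_mul, map_ratCast]
    linear_combination ih - z ^ l.length * (starRingEnd ℂ) (ev l z) * h1

lemma ev_rev' {l : List ℚ} {d : ℕ} (hl : l.length = d + 1) {z : ℂ} (hz : ‖z‖ = 1) :
    ev l.reverse z = z ^ d * (starRingEnd ℂ) (ev l z) := by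
  have h := ev_rev l hz
  rw [hl, pow_succ', mul_assoc] at h
  exact mul_left_cancel₀ (fun e => by simp [e] at hz) h

lemma ev_diff (l : List ℚ) : Differentiable ℂ (ev l) := by
  induction l with
  | nil => exact differentiable_const (0 : ℂ)
  | cons x l ih => exact (differentiable_const _).add (differentiable_id.mul ih)

lemma ev_an (l : List ℚ) : AnalyticAt ℂ (ev l) 0 := (ev_diff l).analyticAt 0

lemma cf (l : List ℚ) (j : ℕ) : coeff j (tay (ev l)) = (l.getD j 0 : ℚ) := by
  induction l generalizing j with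
  | nil =>
    have : ev [] = fun _ => 0 := rfl
    simp [this, tay_const]
  | cons x l ih =>
    have : ev (x :: l) = fun z => (x : ℂ) + z * ev l z := rfl
    rw [this, tay_add (g := fun z => z * ev l z) analyticAt_const (analyticAt_id.fun_mul (ev_an l)),
      tay_mul (f := fun z => z) analyticAt_id (ev_an l), tay_id, tay_const]
    cases j with
    | zero => simp
    | succ j => simp [coeff_succ_X_mul, ih, coeff_C]

lemma t_ad (l m : List ℚ) : tay (ev (ad l m)) = tay (ev l) + tay (ev m) := by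
  rw [← tay_add (ev_an l) (ev_an m)]
  exact congrArg tay (funext (ev_ad l m))

lemma t_sm (c : ℚ) (l : List ℚ) : tay (ev (sm c l)) = C (c : ℂ) * tay (ev l) := by
  rw [← tay_const_mul _ (ev_an l)]
  exact congrArg tay (funext (ev_sm c l))

lemma t_mu (l m : List ℚ) : tay (ev (mu l m)) = tay (ev l) * tay (ev m) := by
  rw [← tay_mul (ev_an l) (ev_an m)]
  exact congrArg tay (funext (ev_mu l m))

lemma eu_get (l : List ℚ) (k j : ℕ) : (eu k l).getD j 0 = (k + j) * l.getD j 0 := by
  induction l generalizing k j with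
  | nil => simp [eu]
  | cons x l ih =>
    cases j with
    | zero => simp [eu]
    | succ j => simp only [eu, List.getD_cons_succ, ih]; push_cast; ring

lemma t_eu (l : List ℚ) : tay (ev (eu 0 l)) = X * d⁄dX ℂ (tay (ev l)) := by
  ext j
  rw [coeff_X_mul_deriv, cf, cf, eu_get]
  push_cast
  ring

lemma t_eq {l m : List ℚ} {d : ℕ} (h : ∀ j < d, l.getD j 0 = m.getD j 0) :
    ∃ T, tay (ev l) = tay (ev m) + X ^ d * T := by
  obtain ⟨T, hT⟩ : X ^ d ∣ tay (ev l) - tay (ev m) :=
    X_pow_dvd_iff.2 fun j hj => by rw [map_sub, cf, cf, h j hj, sub_self]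
  exact ⟨T, by linear_combination hT⟩

lemma teu {f : ℂ → ℂ} (hf : AnalyticAt ℂ f 0) :
    tay (fun z => z * deriv f z) = X * d⁄dX ℂ (tay f) := by
  rw [tay_mul (f := fun z => z) analyticAt_id hf.deriv, tay_id, tay_deriv]

end Pool.Agent.P.MP_bdc337_an.UB
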