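import Pool.Agent.P.MP_bdc337_an.UB.A

/-! Certificates for rational competitors. -/

set_option autoImplicit false

open Finset PowerSeries Metric Filter Topology Real

namespace Pool.Agent.P.MP_bdc337_an.UB

open UO LN

/-- on the circle this is `z ^ d` times twice the real part of `U` times the conjugate of `V` -/
def rr (u v : List ℚ) : List ℚ := ad (mu u.reverse v) (mu v.reverse u)

/-- `p = U / V` has positive real part; `lq`, `lf`, `lc` are the first coefficients of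
`p ^ a`, of `f / z` and of the first variation -/
def Ok (a k lam dl : ℚ) (d : ℕ) (u v h lq lf lc : List ℚ) : Prop :=
  (0 < a ∧ a < 1 ∧ 0 < k ∧ k ≤ 1 ∧ 0 ≤ lam) ∧
  (u.length = d ∧ v.length = d ∧ h.length = d + 1) ∧ l1 v < 1 ∧
  l1 (ad (rr (1 :: u) (1 :: v))
    (ad (sm (-lam) (mu h.reverse h)) (sm (-dl) (List.replicate d 0 ++ [1])))) < dl ∧
  lq.getD 0 0 = 1 ∧ lf.getD 0 0 = 1 ∧
  (∀ j < d + 1, (mu (mu (1 :: u) (1 :: v)) (eu 0 lq)).getD j 0 = (mu (sm a
    (ad (mu (eu 0 (1 :: u)) (1 :: v)) (sm (-1) (mu (1 :: u) (eu 0 (1 :: v)))))) lq).getD j 0) ∧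
  (∀ j < d + 1, (ad (eu 0 lf) lf).getD j 0 = (mu lq lf).getD j 0) ∧
  ∀ j < d + 1, (mu (mu (1 :: u) (1 :: v)) lc).getD j 0 =
    (sm (a * (1 - k)) (mu lq (rr (1 :: u) (1 :: v)))).getD j 0

variable {a k lam dl : ℚ} {d : ℕ} {u v h lq lf lc : List ℚ}

theorem main (c : Ok a k lam dl d u v h lq lf lc) : ∃ q H G, Dat (a : ℝ) q H G ∧
    coeff d (tay fun z => Complex.exp (G z)) = (lf.getD d 0 : ℚ) ∧
    ∀ n, d < n → ∀ s : ℂ, ‖s‖ = 1 → ∃ q' H' G', Dat (a : ℝ) q' H' G' ∧
      coeff (n + d) (tay fun z => Complex.exp (G' z)) =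
        coeff (n + d) (tay fun z => Complex.exp (G z)) + s * (∑ j ∈ range (d + 1),
          lf.getD j 0 * (lc.getD (d - j) 0 / (n + (d - j : ℕ))) : ℚ) := by
  obtain ⟨⟨a0, a1, k0, k1, m0⟩, ⟨lu, lv, lh⟩, hv, hD, q1, f1, E1, E2, E3⟩ := c
  have hnb : closedBall (0 : ℂ) 1 ∈ 𝓝 (0 : ℂ) := closedBall_mem_nhds 0 one_pos
  have a0' : (0 : ℝ) < a := by exact_mod_cast a0
  have a1' : (a : ℝ) < 1 := by exact_mod_cast a1
  have k0' : (0 : ℝ) < k := by exact_mod_cast k0
  have k1' : (k : ℝ) ≤ 1 := by exact_mod_cast k1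
  have m0' : (0 : ℝ) ≤ lam := by exact_mod_cast m0
  have lu' : (1 :: u).length = d + 1 := by simp [lu]
  have lv' : (1 :: v).length = d + 1 := by simp [lv]
  have u0 : ev (1 :: u) 0 = 1 := by simp [ev]
  have v0 : ev (1 :: v) 0 = 1 := by simp [ev]
  have vn : ∀ z ∈ closedBall (0 : ℂ) 1, ev (1 :: v) z ≠ 0 := fun z hz e => by
    have h1 := mem_closedBall_zero_iff.1 hz
    have h2 := ev_norm v h1
    have h3 : (l1 v : ℝ) < 1 := by exact_mod_cast hv
    have h4 : z * ev v z = -1 := by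
      simp only [ev] at e
      push_cast at e
      linear_combination e
    have h5 := congrArg norm h4
    rw [norm_mul, norm_neg, norm_one] at h5
    nlinarith [norm_nonneg z, norm_nonneg (ev v z)]
  obtain ⟨T1, e1⟩ := t_eq E1
  obtain ⟨T2, e2⟩ := t_eq E2
  obtain ⟨T3, e3⟩ := t_eq E3
  simp only [t_mu, t_eu, t_sm, t_ad] at e1 e2 e3
  have dU := ev_diff (1 :: u)
  have dV := ev_diff (1 :: v)
  have dR := ev_diff (rr (1 :: u) (1 :: v))
  have dW := ev_diff (1 :: v).reverse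
  have hR : ∀ z : ℂ, ‖z‖ = 1 → ev (rr (1 :: u) (1 :: v)) z = z ^ d *
      ((starRingEnd ℂ) (ev (1 :: u) z) * ev (1 :: v) z +
        (starRingEnd ℂ) (ev (1 :: v) z) * ev (1 :: u) z) := fun z hz => by
    rw [rr, ev_ad, ev_mu, ev_mu, ev_rev' lu' hz, ev_rev' lv' hz]
    ring
  have hW := fun z hz => ev_rev' lv' (z := z) hz
  have hP : ∀ z : ℂ, ‖z‖ = 1 → ‖(starRingEnd ℂ) (ev (1 :: u) z) * ev (1 :: v) z +
      (starRingEnd ℂ) (ev (1 :: v) z) * ev (1 :: u) z -
        lam * ((starRingEnd ℂ) (ev h z) * ev h z) - dl‖ < dl := fun z hz => by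
    have h1 := (ev_norm _ hz.le).trans_lt (Rat.cast_lt.2 hD)
    rw [ev_ad, ev_ad, ev_sm, ev_sm, ev_mu, ev_app, ev_zero, hR z hz, ev_rev' lh hz,
      List.length_replicate] at h1
    refine lt_of_eq_of_lt ?_ h1
    rw [← one_mul ‖_ - (dl : ℂ)‖, ← one_pow d, ← hz, ← norm_pow, ← norm_mul]
    congr 1
    simp only [ev]
    push_cast
    ring
  generalize ev (1 :: v).reverse = W at *
  generalize ev (rr (1 :: u) (1 :: v)) = R at *
  generalize ev (1 :: u) = U at *
  generalize ev (1 :: v) = V at *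
  set p : ℂ → ℂ := fun z => U z / V z with hp
  have pd : DifferentiableOn ℂ p (closedBall 0 1) := dU.differentiableOn.div dV.differentiableOn vn
  have pc : ∀ z : ℂ, ‖z‖ = 1 → 0 < (p z).re := fun z hz => by
    have h1 := (abs_lt.1 ((Complex.abs_re_le_norm _).trans_lt (hP z hz))).1
    have h2 := Complex.normSq_pos.2 (vn z (mem_closedBall_zero_iff.2 hz.le))
    simp only [Complex.sub_re, Complex.add_re, Complex.mul_re, Complex.conj_re, Complex.conj_im,
      Complex.ratCast_re, Complex.ratCast_im, zero_mul, sub_zero] at h1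
    simp only [hp]
    rw [Complex.div_re, ← add_div]
    refine div_pos ?_ h2
    nlinarith [mul_nonneg m0' (add_nonneg (mul_self_nonneg (ev h z).re) (mul_self_nonneg (ev h z).im))]
  have pr : ∀ z ∈ closedBall (0 : ℂ) 1, 0 < (p z).re := fun z hz => by
    have := LN.max_lt pd.neg.cexp (c := 1) (fun w hw => ?_) hz
    · rw [Complex.norm_exp, exp_lt_one_iff] at this
      simpa using this
    · rw [Complex.norm_exp, exp_lt_one_iff, Pi.neg_apply, Complex.neg_re, neg_lt_zero]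
      exact pc w hw
  have un : ∀ z ∈ closedBall (0 : ℂ) 1, U z ≠ 0 := fun z hz e => by simpa [hp, e] using pr z hz
  set q : ℂ → ℂ := fun z => Complex.exp ((a : ℝ) * Complex.log (p z)) with hq
  have dq : ∀ z ∈ closedBall (0 : ℂ) 1, HasDerivAt q (q z * ((a : ℝ) *
      ((deriv U z * V z - U z * deriv V z) / V z ^ 2 / p z))) z := fun z hz =>
    ((((dU z).hasDerivAt.fun_div (dV z).hasDerivAt (vn z hz)).clog
      (Or.inl (pr z hz))).const_mul _).cexp
  have qd : DifferentiableOn ℂ q (closedBall 0 1) :=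
    fun z hz => (dq z hz).differentiableAt.differentiableWithinAt
  obtain ⟨H, G, hd⟩ := mk_dat a0' a1' (qd.mono ball_subset_closedBall) (by simp [hq, hp, u0, v0])
    fun z hz => pow_sector a0' a1' (pr z (ball_subset_closedBall hz))
  set A : ℂ → ℂ := fun z => (1 - k) * (R z / (2 * V z ^ 2)) with hA
  have Ad : DifferentiableOn ℂ A (closedBall 0 1) := (dR.differentiableOn.div (by fun_prop)
    fun z hz => mul_ne_zero two_ne_zero (pow_ne_zero 2 (vn z hz))).const_mul _
  have key := fun n s => perturb2 hd pd pr (fun _ _ => rfl) Ad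
    (B := fun z => (1 - k) * (W z / V z))
    ((dW.differentiableOn.div dV.differentiableOn vn).const_mul _) k0' (fun z hz => by
      have h1 := norm_ne_zero_iff.2 (vn z (mem_closedBall_zero_iff.2 hz.le))
      rw [hW z hz, norm_mul, norm_div, norm_mul, norm_pow, hz, one_pow, one_mul, Complex.norm_conj,
        div_self h1, mul_one, show (1 - k : ℂ) = ((1 - k : ℝ) : ℂ) by push_cast; rfl,
        Complex.norm_real, Real.norm_of_nonneg (by linarith)])
    (fun z hz => by
      have h1 := vn z (mem_closedBall_zero_iff.2 hz.le)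
      have h2 : (starRingEnd ℂ) (V z) ≠ 0 := (map_ne_zero _).2 h1
      have h3 : A z - (p z).re * ((1 - k) * (W z / V z)) = 0 := by
        simp only [hA, hp]
        rw [Complex.re_eq_add_conj, map_div₀, hW z hz, hR z hz]
        field_simp
        ring
      rw [h3, norm_zero, mul_zero]
      exact mul_pos (pc z hz) k0') (n := n) (d := d) (s := s)
  have aU := dU.analyticAt 0
  have aV := dV.analyticAt 0
  have aR := dR.analyticAt 0
  have aU' := aU.deriv
  have aV' := aV.deriv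
  have aq := qd.analyticAt hnb
  have aq' := aq.deriv
  have ac : AnalyticAt ℂ (fun z => 2 * (a : ℝ) * (q z / p z * A z)) 0 :=
    analyticAt_const.fun_mul ((aq.fun_div (pd.analyticAt hnb) (by simp [hp, u0, v0])).fun_mul
      (Ad.analyticAt hnb))
  have i1 : (fun z => U z * V z * (z * deriv q z)) =ᶠ[𝓝 0] fun z =>
      (a : ℂ) * (z * deriv U z * V z - U z * (z * deriv V z)) * q z := by
    filter_upwards [hnb] with z hz
    have h1 := vn z hz
    have h2 := un z hz
    rw [(dq z hz).deriv]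
    simp only [hp]
    push_cast
    field_simp
  have i3 : (fun z => U z * V z * (2 * (a : ℝ) * (q z / p z * A z))) =ᶠ[𝓝 0] fun z =>
      ((a * (1 - k) : ℚ) : ℂ) * (q z * R z) := by
    filter_upwards [hnb] with z hz
    have h1 := vn z hz
    have h2 := un z hz
    simp only [hp, hA]
    push_cast
    field_simp
  have j1 := tay_congr i1
  have j3 := tay_congr i3
  rw [tay_mul (by fun_prop) (by fun_prop), tay_mul aU aV, teu aq, tay_mul (by fun_prop) aq,
    tay_const_mul _ (by fun_prop), tay_sub (by fun_prop) (by fun_prop),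
    tay_mul (by fun_prop) aV, tay_mul aU (by fun_prop), teu aU, teu aV] at j1
  rw [tay_mul (by fun_prop) ac, tay_mul aU aV, tay_const_mul _ (aq.fun_mul aR),
    tay_mul aq aR] at j3
  have j2 := hd.euler
  have hM : tay U * tay V * (tay U * tay V)⁻¹ = 1 := PowerSeries.mul_inv_cancel _ (by
    rw [map_mul, ← coeff_zero_eq_constantCoeff_apply, ← coeff_zero_eq_constantCoeff_apply,
      coeff_zero_tay, coeff_zero_tay, u0, v0]
    simp)
  generalize (tay U * tay V)⁻¹ = Mi at hM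
  have c1 : C ((-1 : ℚ) : ℂ) = (-1 : ℂ⟦X⟧) := by simp
  rw [c1] at e1
  have w1 := van (K := X * (Mi * C (a : ℂ) * (d⁄dX ℂ (tay U) * tay V - tay U * d⁄dX ℂ (tay V))))
    (R := tay q - tay (ev lq)) (T := -(Mi * T1)) (m := d + 1) (by simp)
    (by rw [map_sub, cf, q1, coeff_zero_tay, hd.q0]; simp) (by
      rw [map_sub]
      linear_combination Mi * j1 - Mi * e1 -
        (X * d⁄dX ℂ (tay q) - X * d⁄dX ℂ (tay (ev lq))) * hM)
  obtain ⟨T, hT⟩ := X_pow_dvd_iff.2 w1
  have w2 := van (K := tay q - 1) (R := (tay fun z => Complex.exp (G z)) - tay (ev lf))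
    (T := T * tay (ev lf) - T2) (m := d + 1)
    (by rw [map_sub, coeff_zero_tay, hd.q0]; simp)
    (by rw [map_sub, cf, f1, coeff_zero_tay, hd.G0]; simp) (by
      rw [map_sub]
      linear_combination j2 - e2 + tay (ev lf) * hT)
  have w3 := X_pow_dvd_iff.1 (show X ^ (d + 1) ∣
      (tay fun z => 2 * (a : ℝ) * (q z / p z * A z)) - tay (ev lc) from
    ⟨Mi * (C ((a * (1 - k) : ℚ) : ℂ) * T * tay R - T3), by
      linear_combination Mi * j3 - Mi * e3 + Mi * C ((a * (1 - k) : ℚ) : ℂ) * tay R * hT -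
        ((tay fun z => 2 * (a : ℝ) * (q z / p z * A z)) - tay (ev lc)) * hM⟩)
  simp only [map_sub, cf, sub_eq_zero] at w2 w3
  refine ⟨q, H, G, hd, w2 d (by omega), fun n hn s hs => ?_⟩
  obtain ⟨q', H', G', h', e⟩ := key n s hn hs
  refine ⟨q', H', G', h', ?_⟩
  rw [e, Finset.Nat.sum_antidiagonal_eq_sum_range_succ_mk, Rat.cast_sum]
  congr 2
  refine sum_congr rfl fun j hj => ?_
  rw [w2 j (mem_range.1 hj), w3 (d - j) (by omega)]
  push_cast
  rfl

theorem direct (c : Ok a k lam dl d u v h lq lf lc) (hs : 2 * a < d * lf.getD d 0) :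
    ¬Ex d (a : ℝ) := fun hE => by
  obtain ⟨q, H, G, hd, e, -⟩ := main c
  have h1 := hE q H G hd
  rw [cN, e, Complex.norm_ratCast] at h1
  have h2 : 2 * (a : ℝ) < d * (lf.getD d 0 : ℚ) := by exact_mod_cast hs
  nlinarith [mul_le_mul_of_nonneg_left (le_abs_self ((lf.getD d 0 : ℚ) : ℝ)) (Nat.cast_nonneg d)]

theorem ladder (c : Ok a k lam dl d u v h lq lf lc) {x : ℚ}
    (ht : ∀ j < d + 1, 0 ≤ lf.getD j 0 * lc.getD (d - j) 0)
    (hs : 2 * a < ∑ j ∈ range (d + 1), lf.getD j 0 * lc.getD (d - j) 0 / (1 - j * x))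
    {N : ℕ} (hN : 2 * d < N) (hx : N * x ≤ 1) : ¬Ex N (a : ℝ) := fun hE => by
  obtain ⟨q, H, G, hd, -, key⟩ := main c
  obtain ⟨n, rfl⟩ : ∃ n, N = n + d := ⟨N - d, by omega⟩
  obtain ⟨q1, H1, G1, D1, e1⟩ := key n (by omega) 1 norm_one
  obtain ⟨q2, H2, G2, D2, e2⟩ := key n (by omega) (-1) (by simp)
  have c1 := hE _ _ _ D1
  have c2 := hE _ _ _ D2
  unfold cN at c1 c2
  have h3 := norm_sub_le (coeff (n + d) (tay fun z => Complex.exp (G1 z)))
    (coeff (n + d) (tay fun z => Complex.exp (G2 z)))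
  conv_lhs at h3 => rw [e1, e2, add_sub_add_left_eq_sub, ← sub_mul, norm_mul]
  rw [show ‖(1 : ℂ) - -1‖ = 2 by norm_num, Complex.norm_ratCast] at h3
  have h4 : 2 * a < ((n + d : ℕ) : ℚ) * ∑ j ∈ range (d + 1),
      lf.getD j 0 * (lc.getD (d - j) 0 / (n + (d - j : ℕ))) := by
    refine hs.trans_le ?_
    rw [mul_sum]
    refine sum_le_sum fun j hj => ?_
    have j1 := mem_range.1 hj
    have j2 : (j : ℚ) ≤ d := by exact_mod_cast (by omega : j ≤ d)
    have j3 : (d : ℚ) < n := by exact_mod_cast (by omega : d < n)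
    have j0 : (0 : ℚ) ≤ j := Nat.cast_nonneg j
    have t0 := ht j j1
    rw [Nat.cast_sub (by omega), ← mul_div_assoc, ← mul_div_assoc]
    push_cast at hx ⊢
    have b1 : 0 < 1 - j * x := by
      rcases le_total 0 x with x0 | x0 <;> nlinarith
    rw [div_le_div_iff₀ b1 (by linarith)]
    nlinarith [mul_nonneg t0 (mul_nonneg j0 (sub_nonneg.2 hx))]
  generalize (∑ j ∈ range (d + 1), lf.getD j 0 * (lc.getD (d - j) 0 / (n + (d - j : ℕ)))) = S at *
  have h5 : 2 * (a : ℝ) < ((n + d : ℕ) : ℝ) * S := by exact_mod_cast h4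
  nlinarith [mul_le_mul_of_nonneg_left h3 (Nat.cast_nonneg (α := ℝ) (n + d)),
    mul_le_mul_of_nonneg_left (le_abs_self (S : ℝ)) (Nat.cast_nonneg (α := ℝ) (n + d))]

end Pool.Agent.P.MP_bdc337_an.UB
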